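import Pool.Agent.LE.StmtsQD

/-!
# Row TOR: the kernel on the cyclic group and the kernel on the integers
-/

set_option autoImplicit false

noncomputable section

namespace Pool.Agent.LE.QD.H89

open Complex Finset

/-- `e^{i j θ}` -/
def ej (j : ℤ) (θ : ℝ) : ℂ := exp (I * ((j * θ : ℝ) : ℂ))

theorem ej_mul (j k : ℤ) (θ : ℝ) : ej j θ * ej k θ = ej (j + k) θ := by
  unfold ej
  rw [← exp_add]
  congr 1
  push_cast
  ring

theorem ej_norm (j : ℤ) (θ : ℝ) : ‖ej j θ‖ = 1 := by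
  unfold ej
  rw [mul_comm, norm_exp_ofReal_mul_I]

theorem cos_pow (θ : ℝ) (m : ℕ) : ((2 * Real.cos θ : ℝ) : ℂ) ^ m =
    ∑ k ∈ range (m + 1), ((m.choose k : ℕ) : ℂ) * ej (2 * (k : ℤ) - m) θ := by
  have h1 : ((2 * Real.cos θ : ℝ) : ℂ) = ej 1 θ + ej (-1) θ := by
    unfold ej
    push_cast
    rw [two_cos]
    congr 1 <;> congr 1 <;> ring
  rw [h1, add_pow]
  refine sum_congr rfl fun k hk => ?_
  have hk' : k ≤ m := by
    have := mem_range.1 hk
    omega
  have h2 : ej 1 θ ^ k = ej k θ := by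
    unfold ej
    rw [← exp_nat_mul]
    congr 1
    push_cast
    ring
  have h3 : ej (-1) θ ^ (m - k) = ej (-((m - k : ℕ) : ℤ)) θ := by
    unfold ej
    rw [← exp_nat_mul]
    congr 1
    push_cast
    ring
  rw [h2, h3, ej_mul, mul_comm]
  congr 2
  push_cast [hk']
  ring

/-- the angle of `p` -/
def an (M : ℕ) (p : ZMod M) : ℝ := 2 * Real.pi * (p.valMinAbs : ℝ) / M

theorem disc (M : ℕ) [NeZero M] (n : ZMod M) (j : ℤ) :
    (∑ p : ZMod M, ZMod.stdAddChar (p * n) * ej j (an M p)) / (M : ℂ) =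
      if n + (j : ZMod M) = 0 then 1 else 0 := by
  have h1 : ∀ p : ZMod M, ej j (an M p) = ZMod.stdAddChar (p * (j : ZMod M)) := by
    intro p
    have e : p * (j : ZMod M) = ((p.valMinAbs * j : ℤ) : ZMod M) := by
      rw [Int.cast_mul, ZMod.coe_valMinAbs]
    rw [e, ZMod.stdAddChar_coe]
    unfold ej an
    congr 1
    push_cast
    ring
  have h2 : ∀ p : ZMod M, ZMod.stdAddChar (p * n) * ej j (an M p) =
      ZMod.stdAddChar (p * (n + (j : ZMod M))) := by
    intro p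
    rw [h1, ← AddChar.map_add_eq_mul, mul_add]
  have hM : (M : ℂ) ≠ 0 := Nat.cast_ne_zero.2 (NeZero.ne M)
  rw [sum_congr rfl fun p _ => h2 p, AddChar.sum_mulShift _ (ZMod.isPrimitive_stdAddChar M)]
  split_ifs
  · rw [ZMod.card, div_self hM]
  · simp

theorem cont (n j : ℤ) :
    (∫ θ in (0 : ℝ)..(2 * Real.pi), ej n θ * ej j θ) / ((2 * Real.pi : ℝ) : ℂ) =
      if n + j = 0 then 1 else 0 := by
  have h1 : ∀ θ : ℝ, ej n θ * ej j θ = exp ((I * ((n + j : ℤ) : ℂ)) * θ) := by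
    intro θ
    rw [ej_mul]
    unfold ej
    congr 1
    push_cast
    ring
  have hpi : ((2 * Real.pi : ℝ) : ℂ) ≠ 0 := by
    rw [Ne, ofReal_eq_zero]
    positivity
  rw [intervalIntegral.integral_congr fun θ _ => h1 θ]
  split_ifs with h
  · rw [h]
    simp only [Int.cast_zero, mul_zero, zero_mul, exp_zero, intervalIntegral.integral_const,
      sub_zero, real_smul, mul_one]
    exact div_self hpi
  · have h2 : I * ((n + j : ℤ) : ℂ) ≠ 0 := mul_ne_zero I_ne_zero (Int.cast_ne_zero.2 h)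
    rw [integral_exp_mul_complex h2]
    have h3 : exp (I * ((n + j : ℤ) : ℂ) * ((2 * Real.pi : ℝ) : ℂ)) = 1 := by
      rw [exp_eq_one_iff]
      exact ⟨n + j, by push_cast; ring⟩
    rw [h3]
    simp

/-- the partial sum of the power series -/
def ps (t : ℝ) (N : ℕ) (θ : ℝ) : ℂ :=
  ∑ m ∈ range N, (I * (t : ℂ)) ^ m / (m.factorial : ℂ) *
    ∑ k ∈ range (m + 1), ((m.choose k : ℕ) : ℂ) * ej (2 * (k : ℤ) - m) θ

theorem ps_near (M : ℕ) [NeZero M] (t : ℝ) (ht : |t| ≤ M / 40) (N : ℕ) (hN : (M : ℝ) / 2 ≤ N)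
    (θ : ℝ) : ‖exp (I * ((2 * t * Real.cos θ : ℝ) : ℂ)) - ps t N θ‖ ≤
      4 * Real.exp (-((M : ℝ) / 4)) := by
  set x : ℂ := I * ((2 * t * Real.cos θ : ℝ) : ℂ) with hx
  have hM : (0 : ℝ) < M := Nat.cast_pos.2 (NeZero.pos M)
  have hxn : ‖x‖ ≤ M / 20 := by
    rw [hx, norm_mul, norm_I, one_mul, norm_real, Real.norm_eq_abs, abs_mul, abs_mul,
      abs_of_pos (show (0 : ℝ) < 2 by norm_num)]
    have h1 := Real.abs_cos_le_one θ
    have h2 : |t| * |Real.cos θ| ≤ |t| * 1 := mul_le_mul_of_nonneg_left h1 (abs_nonneg t)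
    nlinarith
  have hps : ps t N θ = ∑ m ∈ range N, x ^ m / (m.factorial : ℂ) := by
    unfold ps
    refine sum_congr rfl fun m _ => ?_
    rw [← cos_pow, hx]
    rw [show I * ((2 * t * Real.cos θ : ℝ) : ℂ) = I * (t : ℂ) * ((2 * Real.cos θ : ℝ) : ℂ) by
      push_cast; ring, mul_pow]
    ring
  have h3 : ‖x‖ / N.succ ≤ 1 / 2 := by
    rw [div_le_iff₀ (by positivity)]
    push_cast
    linarith
  rw [hps]
  refine (exp_bound' h3).trans ?_
  have h4 : ‖x‖ ^ N / (N.factorial : ℝ) ≤ Real.exp (-(N : ℝ)) * Real.exp (3 * ‖x‖) := by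
    have h5 : (3 * ‖x‖) ^ N / (N.factorial : ℝ) ≤ Real.exp (3 * ‖x‖) :=
      Real.pow_div_factorial_le_exp (3 * ‖x‖) (by positivity) N
    have h6 : ‖x‖ ^ N / (N.factorial : ℝ) = ((3 : ℝ) ^ N)⁻¹ * ((3 * ‖x‖) ^ N / N.factorial) := by
      rw [mul_pow]
      field_simp
    rw [h6]
    refine mul_le_mul ?_ h5 (by positivity) (Real.exp_pos _).le
    rw [Real.exp_neg, show (N : ℝ) = N * 1 by ring, Real.exp_nat_mul]
    refine inv_anti₀ (by positivity) ?_
    refine pow_le_pow_left₀ (Real.exp_pos 1).le ?_ N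
    have := Real.exp_one_lt_d9
    linarith
  have h7 : Real.exp (-(N : ℝ)) * Real.exp (3 * ‖x‖) ≤ Real.exp (-((M : ℝ) / 4)) := by
    rw [← Real.exp_add]
    refine Real.exp_le_exp.2 ?_
    linarith
  have h8 := h4.trans h7
  have h9 := Real.exp_pos (-((M : ℝ) / 4))
  linarith

theorem ej_cont (j : ℤ) : Continuous (ej j) := by
  unfold ej
  fun_prop

theorem ps_cont (t : ℝ) (N : ℕ) : Continuous (ps t N) := by
  unfold ps
  refine continuous_finsetSum _ fun m _ => continuous_const.mul ?_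
  exact continuous_finsetSum _ fun k _ => continuous_const.mul (ej_cont _)

theorem psd (M : ℕ) [NeZero M] (t : ℝ) (n : ZMod M) (N : ℕ) :
    (∑ p : ZMod M, ZMod.stdAddChar (p * n) * ps t N (an M p)) / (M : ℂ) =
      ∑ m ∈ range N, (I * (t : ℂ)) ^ m / (m.factorial : ℂ) *
        ∑ k ∈ range (m + 1), ((m.choose k : ℕ) : ℂ) *
          (if n + ((2 * (k : ℤ) - m : ℤ) : ZMod M) = 0 then 1 else 0) := by
  have h1 : ∀ p : ZMod M, ZMod.stdAddChar (p * n) * ps t N (an M p) =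
      ∑ m ∈ range N, (I * (t : ℂ)) ^ m / (m.factorial : ℂ) *
        ∑ k ∈ range (m + 1), ((m.choose k : ℕ) : ℂ) *
          (ZMod.stdAddChar (p * n) * ej (2 * (k : ℤ) - m) (an M p)) := by
    intro p
    unfold ps
    rw [mul_sum]
    refine sum_congr rfl fun m _ => ?_
    rw [mul_left_comm, mul_sum]
    congr 1
    refine sum_congr rfl fun k _ => ?_
    ring
  rw [sum_congr rfl fun p _ => h1 p, sum_comm, sum_div]
  refine sum_congr rfl fun m _ => ?_
  rw [← mul_sum, mul_div_assoc, sum_comm, sum_div]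
  congr 1
  refine sum_congr rfl fun k _ => ?_
  rw [← mul_sum, mul_div_assoc, disc]

theorem psc (t : ℝ) (n : ℤ) (N : ℕ) :
    (∫ θ in (0 : ℝ)..(2 * Real.pi), ej n θ * ps t N θ) / ((2 * Real.pi : ℝ) : ℂ) =
      ∑ m ∈ range N, (I * (t : ℂ)) ^ m / (m.factorial : ℂ) *
        ∑ k ∈ range (m + 1), ((m.choose k : ℕ) : ℂ) *
          (if n + (2 * (k : ℤ) - m) = 0 then 1 else 0) := by
  have h1 : ∀ θ : ℝ, ej n θ * ps t N θ =
      ∑ m ∈ range N, (I * (t : ℂ)) ^ m / (m.factorial : ℂ) *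
        ∑ k ∈ range (m + 1), ((m.choose k : ℕ) : ℂ) *
          (ej n θ * ej (2 * (k : ℤ) - m) θ) := by
    intro θ
    unfold ps
    rw [mul_sum]
    refine sum_congr rfl fun m _ => ?_
    rw [mul_left_comm, mul_sum]
    congr 1
    refine sum_congr rfl fun k _ => ?_
    ring
  have hc : ∀ k : ℤ, Continuous fun θ => ej n θ * ej k θ := fun k => (ej_cont n).mul (ej_cont k)
  have h2 : ∫ θ in (0 : ℝ)..(2 * Real.pi),
      ∑ m ∈ range N, (I * (t : ℂ)) ^ m / (m.factorial : ℂ) *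
        ∑ k ∈ range (m + 1), ((m.choose k : ℕ) : ℂ) * (ej n θ * ej (2 * (k : ℤ) - m) θ) =
      ∑ m ∈ range N, (I * (t : ℂ)) ^ m / (m.factorial : ℂ) *
        ∑ k ∈ range (m + 1), ((m.choose k : ℕ) : ℂ) *
          ∫ θ in (0 : ℝ)..(2 * Real.pi), ej n θ * ej (2 * (k : ℤ) - m) θ := by
    rw [intervalIntegral.integral_finsetSum]
    · refine sum_congr rfl fun m _ => ?_
      rw [intervalIntegral.integral_const_mul, intervalIntegral.integral_finsetSum]
      · congr 1
        refine sum_congr rfl fun k _ => ?_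
        rw [intervalIntegral.integral_const_mul]
      · intro k _
        exact Continuous.intervalIntegrable (continuous_const.mul (hc _)) _ _
    · intro m _
      exact Continuous.intervalIntegrable
        (continuous_const.mul (continuous_finsetSum _ fun k _ => continuous_const.mul (hc _))) _ _
  rw [intervalIntegral.integral_congr fun θ _ => h1 θ, h2, sum_div]
  refine sum_congr rfl fun m _ => ?_
  rw [mul_div_assoc, sum_div]
  congr 1
  refine sum_congr rfl fun k _ => ?_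
  rw [mul_div_assoc, cont]

/-- TOR: from the cyclic group to `ℤ`. -/
theorem tor : TorStmt := by
  intro M _ t n ht
  have hM : 0 < M := NeZero.pos M
  have hMr : (0 : ℝ) < M := Nat.cast_pos.2 hM
  set a : ℕ := n.valMinAbs.natAbs with ha
  have ha2 : a ≤ M / 2 := ZMod.natAbs_valMinAbs_le n
  set N : ℕ := M - a with hN
  have hN2 : (M : ℝ) / 2 ≤ N := by
    have h1 : M ≤ 2 * N := by omega
    have h2 : (M : ℝ) ≤ 2 * N := by exact_mod_cast h1
    linarith
  set δ : ℝ := 4 * Real.exp (-((M : ℝ) / 4)) with hδ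
  set f : ℝ → ℂ := fun θ => exp (I * ((2 * t * Real.cos θ : ℝ) : ℂ)) with hf
  have hfc : Continuous f := by
    rw [hf]
    fun_prop
  have hnear : ∀ θ, ‖f θ - ps t N θ‖ ≤ δ := fun θ => ps_near M t ht N hN2 θ
  have e1 : jt M t n = (∑ p : ZMod M, ZMod.stdAddChar (p * n) * f (an M p)) / (M : ℂ) := rfl
  have e2 : jb t n.valMinAbs =
      (∫ θ in (0 : ℝ)..(2 * Real.pi), ej n.valMinAbs θ * f θ) / ((2 * Real.pi : ℝ) : ℂ) := by
    unfold jb
    congr 1
    refine intervalIntegral.integral_congr fun θ _ => ?_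
    show exp (I * ((n.valMinAbs * θ + 2 * t * Real.cos θ : ℝ) : ℂ)) =
      ej n.valMinAbs θ * exp (I * ((2 * t * Real.cos θ : ℝ) : ℂ))
    unfold ej
    rw [← exp_add]
    congr 1
    push_cast
    ring
  have e3 : (∑ p : ZMod M, ZMod.stdAddChar (p * n) * ps t N (an M p)) / (M : ℂ) =
      (∫ θ in (0 : ℝ)..(2 * Real.pi), ej n.valMinAbs θ * ps t N θ) / ((2 * Real.pi : ℝ) : ℂ) := by
    rw [psd, psc]
    refine sum_congr rfl fun m hm => ?_
    congr 1
    refine sum_congr rfl fun k hk => ?_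
    congr 1
    have hm' := mem_range.1 hm
    have hk' := mem_range.1 hk
    have h1 : n + ((2 * (k : ℤ) - m : ℤ) : ZMod M) =
        ((n.valMinAbs + (2 * (k : ℤ) - m) : ℤ) : ZMod M) := by
      rw [Int.cast_add, ZMod.coe_valMinAbs]
    rw [h1]
    refine if_congr ((ZMod.intCast_zmod_eq_zero_iff_dvd _ M).trans
      ⟨fun h => ?_, fun h => by rw [h]; exact dvd_zero _⟩) rfl rfl
    by_contra hne
    have h2 := Int.le_of_dvd (Int.natAbs_pos.2 hne |> Int.natCast_pos.2) (Int.dvd_natAbs.2 h)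
    omega
  have e4 : ‖jt M t n -
      (∑ p : ZMod M, ZMod.stdAddChar (p * n) * ps t N (an M p)) / (M : ℂ)‖ ≤ δ := by
    rw [e1, ← sub_div, ← sum_sub_distrib, norm_div, Complex.norm_natCast, div_le_iff₀ hMr]
    refine (norm_sum_le _ _).trans ?_
    refine (sum_le_card_nsmul _ _ δ fun p _ => ?_).trans ?_
    · rw [← mul_sub, norm_mul, AddChar.norm_apply, one_mul]
      exact hnear _
    · rw [card_univ, ZMod.card, nsmul_eq_mul, mul_comm]
  have e5 : ‖jb t n.valMinAbs -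
      (∫ θ in (0 : ℝ)..(2 * Real.pi), ej n.valMinAbs θ * ps t N θ) / ((2 * Real.pi : ℝ) : ℂ)‖ ≤
        δ := by
    have hpi : (0 : ℝ) < 2 * Real.pi := by positivity
    have h0 : (∫ θ in (0 : ℝ)..(2 * Real.pi), ej n.valMinAbs θ * f θ) -
        (∫ θ in (0 : ℝ)..(2 * Real.pi), ej n.valMinAbs θ * ps t N θ) =
        ∫ θ in (0 : ℝ)..(2 * Real.pi), (ej n.valMinAbs θ * f θ - ej n.valMinAbs θ * ps t N θ) :=
      (intervalIntegral.integral_sub (((ej_cont _).mul hfc).intervalIntegrable _ _)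
        (((ej_cont _).mul (ps_cont t N)).intervalIntegrable _ _)).symm
    rw [e2, ← sub_div, h0, norm_div, norm_real,
      Real.norm_eq_abs, abs_of_pos hpi, div_le_iff₀ hpi]
    have := intervalIntegral.norm_integral_le_of_norm_le_const (a := 0) (b := 2 * Real.pi)
      (f := fun θ => ej n.valMinAbs θ * f θ - ej n.valMinAbs θ * ps t N θ) (C := δ)
      (fun θ _ => by rw [← mul_sub, norm_mul, ej_norm, one_mul]; exact hnear θ)
    rwa [sub_zero, abs_of_pos hpi] at this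
  have e6 : jt M t n - jb t n.valMinAbs =
      (jt M t n - (∑ p : ZMod M, ZMod.stdAddChar (p * n) * ps t N (an M p)) / (M : ℂ)) -
      (jb t n.valMinAbs -
        (∫ θ in (0 : ℝ)..(2 * Real.pi), ej n.valMinAbs θ * ps t N θ) / ((2 * Real.pi : ℝ) : ℂ)) := by
    rw [e3]
    ring
  rw [e6]
  refine (norm_sub_le _ _).trans ?_
  linarith

end Pool.Agent.LE.QD.H89
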